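import Pool.Agent.Work.MP_b5407d_lp.Interface

set_option autoImplicit false

open MeasureTheory Real Filter Topology

namespace Pool.Agent.Work.LPBM.helper48

theorem pset_closed {n : ℕ} {ι : Type} (θ : ι → E n) (h : ι → ℝ) : IsClosed (Pset θ h) := by
  have : Pset θ h = ⋂ i, {x : E n | inner ℝ (θ i) x ≤ h i} := by
    ext x
    simp [Pset]
  rw [this]
  refine isClosed_iInter fun i => ?_
  exact isClosed_le (by fun_prop) continuous_const

theorem pset_convex {n : ℕ} {ι : Type} (θ : ι → E n) (h : ι → ℝ) : Convex ℝ (Pset θ h) := by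
  intro x hx y hy a b ha hb hab i
  rw [inner_add_right, inner_smul_right, inner_smul_right]
  have h1 := hx i
  have h2 := hy i
  calc a * inner ℝ (θ i) x + b * inner ℝ (θ i) y ≤ a * h i + b * h i := by
        gcongr
    _ = h i := by rw [← add_mul, hab, one_mul]

theorem pset_compact {n : ℕ} {ι : Type} [Fintype ι] (θ : ι → E n) (h : ι → ℝ) (hS : Span θ) :
    IsCompact (Pset θ h) := by
  obtain ⟨c, hc, hcx⟩ := hS
  refine Metric.isCompact_of_isClosed_isBounded (pset_closed θ h) ?_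
  refine (Metric.isBounded_closedBall (x := (0 : E n)) (r := (∑ i, |h i|) / c)).subset ?_
  intro x hx
  rw [mem_closedBall_zero_iff, le_div_iff₀ hc]
  obtain ⟨i, hi⟩ := hcx x
  have h1 := hx i
  have h2 : |h i| ≤ ∑ i, |h i| := Finset.single_le_sum (f := fun i => |h i|) (fun i _ => abs_nonneg _) (Finset.mem_univ i)
  have h3 := le_abs_self (h i)
  linarith [mul_comm c ‖x‖]

theorem pset_zero_interior {n : ℕ} {ι : Type} [Fintype ι] (θ : ι → E n) (h : ι → ℝ) (hh : ∀ i, 0 < h i) :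
    (0 : E n) ∈ interior (Pset θ h) := by
  have hopen : IsOpen {x : E n | ∀ i, inner ℝ (θ i) x < h i} := by
    have : {x : E n | ∀ i, inner ℝ (θ i) x < h i} = ⋂ i, {x : E n | inner ℝ (θ i) x < h i} := by
      ext x; simp
    rw [this]
    refine isOpen_iInter_of_finite fun i => ?_
    exact isOpen_lt (by fun_prop) continuous_const
  refine mem_interior.2 ⟨{x : E n | ∀ i, inner ℝ (θ i) x < h i}, ?_, hopen, ?_⟩
  · intro x hx i
    exact (hx i).le
  · intro i
    simpa using hh i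

theorem stmt_LIN (hTLT : Stmt_TLT) (hJOH : Stmt_JOH) (hCHG : Stmt_CHG) (hLOC : Stmt_LOC) :
    Stmt_LIN := by
  intro n ι _ p k θ h l hm hn hSp hp hpn hk hhm hh hkh hneg hcen f ε hε
  have hn1 : 1 ≤ n := by omega
  have hnR : (2 : ℝ) ≤ n := by exact_mod_cast hn
  have hn0 : (0 : ℝ) < n := by linarith
  have hhpos : ∀ i, 0 < h i := fun i => lt_of_lt_of_le hhm (hh i)
  obtain ⟨A, hA1, hA2⟩ := hJOH n (Pset θ h) hn1 (pset_convex θ h) (pset_compact θ h hSp)
    (pset_zero_interior θ h hhpos) hneg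
  have htl := hTLT n ι k θ h l hk hSp hhpos hcen
  -- transported vectors
  let B : E n →L[ℝ] E n := (A.symm : E n →L[ℝ] E n)
  let θ' : ι → E n := fun i => (ContinuousLinearMap.adjoint B) (θ i)
  let l' : E n := (ContinuousLinearMap.adjoint B) l
  have hθ' : ∀ i (y : E n), inner ℝ (θ' i) y = inner ℝ (θ i) (A.symm y) := by
    intro i y
    exact ContinuousLinearMap.adjoint_inner_left B y (θ i)
  have hl' : ∀ y : E n, inner ℝ l' y = inner ℝ l (A.symm y) := by
    intro y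
    exact ContinuousLinearMap.adjoint_inner_left B y l
  have hPmem : ∀ y : E n, y ∈ Pset θ' h → A.symm y ∈ Pset θ h := by
    intro y hy i
    rw [← hθ']
    exact hy i
  set R : ℝ := Real.sqrt ((n : ℝ) ^ 3) with hR
  have hR2 : R ^ 2 = (n : ℝ) ^ 3 := by
    rw [hR, Real.sq_sqrt (by positivity)]
  have hRpos : 0 < R := by
    rw [hR]
    positivity
  have hSp' : Span θ' := by
    obtain ⟨c, hc, hcx⟩ := hSp
    refine ⟨c / (‖(A : E n →L[ℝ] E n)‖ + 1), by positivity, ?_⟩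
    intro y
    obtain ⟨i, hi⟩ := hcx (A.symm y)
    refine ⟨i, ?_⟩
    rw [hθ']
    refine le_trans ?_ hi
    have h1 : ‖y‖ ≤ (‖(A : E n →L[ℝ] E n)‖ + 1) * ‖A.symm y‖ := by
      have h2 := (A : E n →L[ℝ] E n).le_opNorm (A.symm y)
      have h3 : (A : E n →L[ℝ] E n) (A.symm y) = y := A.apply_symm_apply y
      rw [h3] at h2
      have h4 : 0 ≤ ‖A.symm y‖ := norm_nonneg _
      linarith
    rw [div_mul_eq_mul_div, div_le_iff₀ (by positivity)]
    calc c * ‖y‖ ≤ c * ((‖(A : E n →L[ℝ] E n)‖ + 1) * ‖A.symm y‖) := by gcongr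
      _ = c * ‖A.symm y‖ * (‖(A : E n →L[ℝ] E n)‖ + 1) := by ring
  have hp4 : (1 - p) * (11 * (n : ℝ) ^ 4) ≤ 2 := hpn
  have hp0 : 0 < 1 - p := by linarith
  have hcond : (1 - p) * (3.82 * n + 2.97) * R ^ 2 ≤ (1 : ℝ) ^ 2 := by
    rw [hR2]
    have h1 : (3.82 * (n : ℝ) + 2.97) * 2 ≤ 11 * n := by linarith
    have h2 : (1 - p) * (n : ℝ) ^ 3 * ((3.82 * (n : ℝ) + 2.97) * 2) ≤ (1 - p) * (n : ℝ) ^ 3 * (11 * n) := by
      gcongr
    nlinarith
  have hp1 : 1 - p ≤ 1 := by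
    have h1 : (1 : ℝ) ≤ (n : ℝ) ^ 4 := by
      have : (1 : ℝ) ≤ n := by linarith
      exact one_le_pow₀ this
    nlinarith
  have hθn : ∀ i, (1 : ℝ) * ‖θ' i‖ ≤ h i := by
    intro i
    rw [one_mul]
    by_cases h0 : θ' i = 0
    · rw [h0, norm_zero]
      exact (hhpos i).le
    · have hpos : 0 < ‖θ' i‖ := norm_pos_iff.2 h0
      have hy : ‖(‖θ' i‖⁻¹ : ℝ) • θ' i‖ ≤ 1 := by
        rw [norm_smul, norm_inv, norm_norm, inv_mul_cancel₀ hpos.ne']
      have h1 := hA2 _ hy i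
      rw [← hθ', inner_smul_right, real_inner_self_eq_norm_sq] at h1
      have h2 : ‖θ' i‖⁻¹ * ‖θ' i‖ ^ 2 = ‖θ' i‖ := by
        field_simp
      linarith
  have hxR : ∀ x ∈ Pset θ' h, ‖x‖ ≤ R := by
    intro x hx
    have h1 := hA1 _ (hPmem x hx)
    rw [A.apply_symm_apply] at h1
    rw [hR]
    exact Real.le_sqrt_of_sq_le h1
  have hxl : ∀ x ∈ Pset θ' h, inner ℝ l' x ≤ n := by
    intro x hx
    rw [hl']
    exact htl _ (hPmem x hx)
  obtain ⟨η', hη'⟩ := hLOC n ι p k θ' h l' hm 1 R hn1 hSp' hp hk hhm one_pos hRpos hh hkh hcond hp1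
    hθn hxR hxl f ε hε
  refine ⟨(ContinuousLinearMap.adjoint (A : E n →L[ℝ] E n)) η', ?_⟩
  have hch := hCHG n ι p k θ θ' h l l' A
    (by
      intro i x
      rw [hθ', A.symm_apply_apply])
    (by
      intro x
      rw [hl', A.symm_apply_apply])
    f ((ContinuousLinearMap.adjoint (A : E n →L[ℝ] E n)) η') η'
    (by
      intro x
      exact (ContinuousLinearMap.adjoint_inner_left (A : E n →L[ℝ] E n) x η').symm)
  rw [← hch]
  exact hη'

end Pool.Agent.Work.LPBM.helper48
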