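import Pool.Agent.Work.MP_b5407d_lp.Interface

set_option autoImplicit false

open MeasureTheory Real Filter Topology
open scoped ContDiff

namespace Pool.Agent.Work.LPBM.helper48

theorem cd_pd {n : ℕ} {f : E n → ℝ} {m m' : WithTop ℕ∞} (hf : ContDiff ℝ m' f) (h : m + 1 ≤ m') (j : Fin n) :
    ContDiff ℝ m (pd j f) :=
  (hf.fderiv_right h).clm_apply contDiff_const

theorem test_pd {n : ℕ} {u : E n → ℝ} (hu : Test u) (j : Fin n) : Test (pd j u) :=
  ⟨cd_pd hu.1 (by simp) j, hu.2.fderiv_apply ℝ _⟩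

theorem pd_add {n : ℕ} {f g : E n → ℝ} {x : E n} (j : Fin n) (hf : DifferentiableAt ℝ f x)
    (hg : DifferentiableAt ℝ g x) : pd j (fun y => f y + g y) x = pd j f x + pd j g x := by
  unfold pd
  rw [fderiv_fun_add hf hg]
  rfl

theorem pd_q {n : ℕ} (R : ℝ) (j : Fin n) (x : E n) :
    pd j (fun y : E n => ‖y‖ ^ 2 / (2 * R ^ 2)) x = x j / R ^ 2 := by
  unfold pd
  have h : (fun y : E n => ‖y‖ ^ 2 / (2 * R ^ 2)) = fun y : E n => (1 / (2 * R ^ 2)) * ‖y‖ ^ 2 := by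
    ext y; ring
  have hd : DifferentiableAt ℝ (fun y : E n => ‖y‖ ^ 2) x :=
    (contDiff_norm_sq ℝ (n := 1)).differentiable (by norm_num) x
  rw [h, fderiv_const_mul hd, fderiv_norm_sq_apply]
  simp [EuclideanSpace.inner_single_right]
  ring

theorem pd_lin {n : ℕ} (c : ℝ) (i j : Fin n) (x : E n) :
    pd i (fun y : E n => y j / c) x = if i = j then 1 / c else 0 := by
  unfold pd
  have h : (fun y : E n => y j / c) = fun y : E n => (1 / c) * (EuclideanSpace.proj (𝕜 := ℝ) j : E n →L[ℝ] ℝ) y := by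
    ext y; simp; ring
  rw [h, fderiv_const_mul (by fun_prop), ContinuousLinearMap.fderiv]
  by_cases hij : i = j
  · subst hij; simp
  · simp [hij, Ne.symm hij]

/-- the growth function -/
noncomputable def gr {n : ℕ} {ι : Type} [Fintype ι] (A k : ℝ) (θ : ι → E n) (h : ι → ℝ) (x : E n) : ℝ :=
  exp (A * ‖x‖) * (1 + ∑ i, G2 (k * (inner ℝ (θ i) x - h i)))

/-- admissible functions -/
def Adm {n : ℕ} {ι : Type} [Fintype ι] (A k : ℝ) (θ : ι → E n) (h : ι → ℝ) (F : E n → ℝ) : Prop :=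
  Continuous F ∧ ∃ C : ℝ, 0 ≤ C ∧ ∀ x, |F x| ≤ C * gr A k θ h x

section
variable {n : ℕ} {ι : Type} [Fintype ι] {A k : ℝ} {θ : ι → E n} {h : ι → ℝ}

theorem Adm.add {F G : E n → ℝ} (hF : Adm A k θ h F) (hG : Adm A k θ h G) :
    Adm A k θ h (fun x => F x + G x) := by
  obtain ⟨hFc, C, hC, hCx⟩ := hF
  obtain ⟨hGc, D, hD, hDx⟩ := hG
  refine ⟨hFc.add hGc, C + D, by positivity, fun x => ?_⟩
  calc |F x + G x| ≤ |F x| + |G x| := abs_add_le _ _
    _ ≤ C * gr A k θ h x + D * gr A k θ h x := add_le_add (hCx x) (hDx x)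
    _ = _ := by ring

theorem Adm.mul {F G : E n → ℝ} (hF : Adm A k θ h F) (hGc : Continuous G) (hGb : ∃ D : ℝ, ∀ x, |G x| ≤ D) :
    Adm A k θ h (fun x => F x * G x) := by
  obtain ⟨hFc, C, hC, hCx⟩ := hF
  obtain ⟨D, hD⟩ := hGb
  have hD0 : 0 ≤ D := le_trans (abs_nonneg _) (hD 0)
  refine ⟨hFc.mul hGc, C * D, by positivity, fun x => ?_⟩
  rw [abs_mul]
  calc |F x| * |G x| ≤ (C * gr A k θ h x) * D := by
        apply mul_le_mul (hCx x) (hD x) (abs_nonneg _)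
        exact le_trans (abs_nonneg _) (hCx x)
    _ = _ := by ring

theorem Adm.one (hSW0 : Stmt_SW0) (hA : 0 ≤ A) : Adm A k θ h (fun _ => 1) := by
  obtain ⟨-, -, -, -, -, -, hG1, hG12, -⟩ := hSW0
  refine ⟨continuous_const, 1, zero_le_one, fun x => ?_⟩
  rw [abs_one, one_mul]
  unfold gr
  have h1 : 1 ≤ exp (A * ‖x‖) := one_le_exp (by positivity)
  have h2 : 0 ≤ ∑ i, G2 (k * (inner ℝ (θ i) x - h i)) :=
    Finset.sum_nonneg fun i _ => le_trans (hG1 _) (hG12 _)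
  nlinarith

theorem Adm.of_bdd (hSW0 : Stmt_SW0) (hA : 0 ≤ A) {G : E n → ℝ} (hGc : Continuous G)
    (hGb : ∃ D : ℝ, ∀ x, |G x| ≤ D) : Adm A k θ h G := by
  have := (Adm.one (k := k) (θ := θ) (h := h) hSW0 hA).mul hGc hGb
  simpa using this

theorem Adm.integrable (hSW0 : Stmt_SW0) (hINT : Stmt_INT) (hk : 0 < k) (hSp : Span θ) {l : E n}
    (hA : ‖l‖ ≤ A) {F : E n → ℝ} (hF : Adm A k θ h F) : Integrable (fun x => F x * W k θ h l x) := by
  obtain ⟨B, hB, hBx⟩ := hINT n ι θ hSp k k (∑ i, |h i|) A hk 1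
  obtain ⟨hFc, C, hC, hCx⟩ := hF
  have hG0c : Continuous G0 := hSW0.2.2.2.1.continuous
  have hWc : Continuous (W k θ h l) := by
    unfold W wt Vpot Upot
    fun_prop
  refine (hB.const_mul C).mono' (hFc.mul hWc).aestronglyMeasurable (Eventually.of_forall fun x => ?_)
  rw [norm_mul, Real.norm_eq_abs, Real.norm_eq_abs]
  have hW0 : 0 < W k θ h l x := exp_pos _
  rw [abs_of_pos hW0]
  have h1 := hBx k h l le_rfl le_rfl
    (fun i => Finset.single_le_sum (f := fun i => |h i|) (fun i _ => abs_nonneg _) (Finset.mem_univ i)) hA x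
  rw [pow_one] at h1
  calc |F x| * W k θ h l x ≤ (C * gr A k θ h x) * W k θ h l x := by gcongr; exact hCx x
    _ = C * (exp (A * ‖x‖) * (1 + ∑ i, G2 (k * (inner ℝ (θ i) x - h i))) * W k θ h l x) := by
        unfold gr; ring
    _ ≤ C * B x := by gcongr

theorem Adm.sx (hSW0 : Stmt_SW0) (hA : 1 ≤ A) (hk : 0 < k) : Adm A k θ h (Sx k θ h) := by
  obtain ⟨-, -, -, -, hG1c, -, hG1, hG12, -⟩ := hSW0
  have hG1c' : Continuous G1 := hG1c.continuous
  refine ⟨by unfold Sx; fun_prop, k * ∑ i, ‖θ i‖, by positivity, fun x => ?_⟩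
  unfold Sx gr
  have hx : ‖x‖ ≤ exp (A * ‖x‖) := by
    have h1 := add_one_le_exp (A * ‖x‖)
    have h2 : ‖x‖ ≤ A * ‖x‖ := by
      have := norm_nonneg x
      nlinarith
    linarith
  have hG2n : ∀ s, 0 ≤ G2 s := fun s => le_trans (hG1 _) (hG12 _)
  have hsum : 0 ≤ ∑ i, G2 (k * (inner ℝ (θ i) x - h i)) := Finset.sum_nonneg fun i _ => hG2n _
  calc |∑ i, k * G1 (k * (inner ℝ (θ i) x - h i)) * inner ℝ (θ i) x|
      ≤ ∑ i, |k * G1 (k * (inner ℝ (θ i) x - h i)) * inner ℝ (θ i) x| := Finset.abs_sum_le_sum_abs _ _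
    _ ≤ ∑ i, k * ‖θ i‖ * (‖x‖ * (1 + ∑ i, G2 (k * (inner ℝ (θ i) x - h i)))) := by
        refine Finset.sum_le_sum fun i _ => ?_
        rw [abs_mul, abs_mul, abs_of_pos hk, abs_of_nonneg (hG1 _)]
        have h1 : |inner ℝ (θ i) x| ≤ ‖θ i‖ * ‖x‖ := abs_real_inner_le_norm _ _
        have h2 : G1 (k * (inner ℝ (θ i) x - h i)) ≤ 1 + ∑ i, G2 (k * (inner ℝ (θ i) x - h i)) := by
          have h3 : G2 (k * (inner ℝ (θ i) x - h i)) ≤ ∑ i, G2 (k * (inner ℝ (θ i) x - h i)) :=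
            Finset.single_le_sum (f := fun i => G2 (k * (inner ℝ (θ i) x - h i))) (fun i _ => hG2n _)
              (Finset.mem_univ i)
          linarith [hG12 (k * (inner ℝ (θ i) x - h i))]
        calc k * G1 (k * (inner ℝ (θ i) x - h i)) * |inner ℝ (θ i) x|
            ≤ k * (1 + ∑ i, G2 (k * (inner ℝ (θ i) x - h i))) * (‖θ i‖ * ‖x‖) := by
              gcongr
          _ = _ := by ring
    _ = (k * ∑ i, ‖θ i‖) * (‖x‖ * (1 + ∑ i, G2 (k * (inner ℝ (θ i) x - h i)))) := by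
        rw [← Finset.sum_mul, Finset.mul_sum]
    _ ≤ (k * ∑ i, ‖θ i‖) * (exp (A * ‖x‖) * (1 + ∑ i, G2 (k * (inner ℝ (θ i) x - h i)))) := by
        gcongr

theorem Adm.poly (hSW0 : Stmt_SW0) (hA : 2 ≤ A) (c0 β : ℝ) (l : E n) :
    Adm A k θ h (fun x => c0 + inner ℝ l x + ‖x‖ ^ 2 / β) := by
  obtain ⟨-, -, -, -, -, -, hG1, hG12, -⟩ := hSW0
  refine ⟨by fun_prop, |c0| + ‖l‖ + |β⁻¹|, by positivity, fun x => ?_⟩
  unfold gr
  have hG2n : ∀ s, 0 ≤ G2 s := fun s => le_trans (hG1 _) (hG12 _)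
  have hsum : 0 ≤ ∑ i, G2 (k * (inner ℝ (θ i) x - h i)) := Finset.sum_nonneg fun i _ => hG2n _
  have hx0 := norm_nonneg x
  have h1 : 1 ≤ exp (A * ‖x‖) := one_le_exp (by positivity)
  have h3 : ‖x‖ ^ 2 ≤ exp (A * ‖x‖) := by
    have h4 : ‖x‖ ≤ exp ‖x‖ := by linarith [add_one_le_exp ‖x‖]
    calc ‖x‖ ^ 2 ≤ (exp ‖x‖) ^ 2 := by gcongr
      _ = exp (2 * ‖x‖) := by rw [← exp_nat_mul]; norm_num
      _ ≤ exp (A * ‖x‖) := by gcongr
  have h2 : ‖x‖ ≤ exp (A * ‖x‖) := by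
    have h4 := add_one_le_exp (A * ‖x‖)
    nlinarith
  have h5 : exp (A * ‖x‖) ≤ exp (A * ‖x‖) * (1 + ∑ i, G2 (k * (inner ℝ (θ i) x - h i))) := by
    have := exp_pos (A * ‖x‖)
    nlinarith
  have h6 : |inner ℝ l x| ≤ ‖l‖ * ‖x‖ := abs_real_inner_le_norm _ _
  calc |c0 + inner ℝ l x + ‖x‖ ^ 2 / β| ≤ |c0 + inner ℝ l x| + |‖x‖ ^ 2 / β| := abs_add_le _ _
    _ ≤ |c0| + |inner ℝ l x| + |‖x‖ ^ 2 / β| := by gcongr; exact abs_add_le _ _
    _ = |c0| + |inner ℝ l x| + |β⁻¹| * ‖x‖ ^ 2 := by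
        rw [div_eq_mul_inv, abs_mul, abs_of_nonneg (by positivity : 0 ≤ ‖x‖ ^ 2)]; ring
    _ ≤ |c0| * exp (A * ‖x‖) + ‖l‖ * exp (A * ‖x‖) + |β⁻¹| * exp (A * ‖x‖) := by
        have e1 : |c0| ≤ |c0| * exp (A * ‖x‖) := le_mul_of_one_le_right (abs_nonneg _) h1
        have e2 : |inner ℝ l x| ≤ ‖l‖ * exp (A * ‖x‖) := h6.trans (by gcongr)
        have e3 : |β⁻¹| * ‖x‖ ^ 2 ≤ |β⁻¹| * exp (A * ‖x‖) := by gcongr
        linarith
    _ = (|c0| + ‖l‖ + |β⁻¹|) * exp (A * ‖x‖) := by ring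
    _ ≤ _ := by gcongr

end

/-- the convexified potential -/
noncomputable def Vq {n : ℕ} {ι : Type} [Fintype ι] (R k : ℝ) (θ : ι → E n) (h : ι → ℝ) (l : E n) (x : E n) : ℝ :=
  Vpot k θ h l x + ‖x‖ ^ 2 / (2 * R ^ 2)

section
variable {n : ℕ} {ι : Type} [Fintype ι] {R k : ℝ} {θ : ι → E n} {h : ι → ℝ} {l : E n}

theorem Vq_cd (hVD : Stmt_VD) : ContDiff ℝ 2 (Vq R k θ h l) := by
  have h1 := (hVD n ι k θ h l).1
  have h2 : ContDiff ℝ 2 (fun x : E n => ‖x‖ ^ 2 / (2 * R ^ 2)) := (contDiff_norm_sq ℝ).div_const _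
  exact h1.add h2

theorem Vq_pd (hVD : Stmt_VD) (j : Fin n) :
    pd j (Vq R k θ h l) = fun x => pd j (Vpot k θ h l) x + x j / R ^ 2 := by
  funext x
  have h1 := (hVD n ι k θ h l).1
  have h2 : ContDiff ℝ 2 (fun x : E n => ‖x‖ ^ 2 / (2 * R ^ 2)) := (contDiff_norm_sq ℝ).div_const _
  have h3 := pd_add (x := x) j (h1.differentiable (by norm_num) x) (h2.differentiable (by norm_num) x)
  rw [pd_q] at h3
  exact h3

theorem Vq_pd2 (hVD : Stmt_VD) (i j : Fin n) (x : E n) :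
    pd i (pd j (Vq R k θ h l)) x
      = (∑ m, k ^ 2 * G2 (k * (inner ℝ (θ m) x - h m)) * θ m i * θ m j) + if i = j then 1 / R ^ 2 else 0 := by
  have h1 := (hVD n ι k θ h l).1
  rw [Vq_pd hVD j]
  have h2 : ContDiff ℝ 1 (pd j (Vpot k θ h l)) := cd_pd h1 (by norm_num) j
  have h3 : DifferentiableAt ℝ (fun x : E n => x j / R ^ 2) x := by fun_prop
  rw [pd_add i (h2.differentiable (by norm_num) x) h3, pd_lin, (hVD n ι k θ h l).2.2]

theorem Vq_hess (hSW0 : Stmt_SW0) (hVD : Stmt_VD) (x : E n) (v : Fin n → ℝ) :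
    1 / R ^ 2 * ∑ j, (v j) ^ 2 ≤ ∑ i, ∑ j, pd i (pd j (Vq R k θ h l)) x * v i * v j := by
  obtain ⟨-, -, -, -, -, -, hG1, hG12, -⟩ := hSW0
  have hG2n : ∀ s, 0 ≤ G2 s := fun s => le_trans (hG1 _) (hG12 _)
  have e1 : ∑ i, ∑ j, pd i (pd j (Vq R k θ h l)) x * v i * v j
      = (∑ m, k ^ 2 * G2 (k * (inner ℝ (θ m) x - h m)) * (∑ i, θ m i * v i) ^ 2)
        + 1 / R ^ 2 * ∑ j, (v j) ^ 2 := by
    have e2 : ∀ i j, pd i (pd j (Vq R k θ h l)) x * v i * v j
        = (∑ m, k ^ 2 * G2 (k * (inner ℝ (θ m) x - h m)) * ((θ m i * v i) * (θ m j * v j)))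
          + if i = j then 1 / R ^ 2 * (v i * v j) else 0 := by
      intro i j
      rw [Vq_pd2 hVD, add_mul, add_mul, Finset.sum_mul, Finset.sum_mul]
      congr 1
      · refine Finset.sum_congr rfl fun m _ => ?_
        ring
      · split_ifs <;> ring
    simp_rw [e2, Finset.sum_add_distrib]
    congr 1
    · simp_rw [sq, Finset.sum_mul_sum, Finset.mul_sum]
      rw [Finset.sum_congr rfl fun i _ => Finset.sum_comm]
      rw [Finset.sum_comm]
    · simp only [Finset.sum_ite_eq, Finset.mem_univ, if_true]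
      rw [Finset.mul_sum]
      refine Finset.sum_congr rfl fun i _ => ?_
      ring
  rw [e1]
  have : 0 ≤ ∑ m, k ^ 2 * G2 (k * (inner ℝ (θ m) x - h m)) * (∑ i, θ m i * v i) ^ 2 :=
    Finset.sum_nonneg fun m _ => mul_nonneg (mul_nonneg (sq_nonneg _) (hG2n _)) (sq_nonneg _)
  linarith

theorem Vq_wt (x : E n) : wt (Vq R k θ h l) x = exp (-(‖x‖ ^ 2 / (2 * R ^ 2))) * W k θ h l x := by
  unfold W wt Vq
  rw [← exp_add]
  congr 1
  ring

theorem sx_nonneg (hSW0 : Stmt_SW0) (hk : 0 < k) (hh : ∀ i, 0 < h i) (x : E n) : 0 ≤ Sx k θ h x := by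
  obtain ⟨-, -, -, -, -, -, hG1, hG12, -⟩ := hSW0
  unfold Sx
  refine Finset.sum_nonneg fun i _ => ?_
  by_cases hi : inner ℝ (θ i) x ≤ h i
  · have : G1 (k * (inner ℝ (θ i) x - h i)) = 0 := by
      unfold G1
      rw [if_pos]
      exact mul_nonpos_of_nonneg_of_nonpos hk.le (by linarith)
    rw [this]
    simp
  · push Not at hi
    have h1 := hh i
    have h2 := hG1 (k * (inner ℝ (θ i) x - h i))
    have h3 : 0 ≤ inner ℝ (θ i) x := by linarith
    positivity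

end

theorem pd_bdd {n : ℕ} {u : E n → ℝ} (hu : Test u) (j : Fin n) : ∃ C : ℝ, ∀ x, |pd j u x| ≤ C := by
  obtain ⟨C, hC⟩ := (test_pd hu j).1.continuous.bounded_above_of_compact_support (test_pd hu j).2
  exact ⟨C, hC⟩

theorem sum_bdd {n m : ℕ} {F : Fin m → E n → ℝ} (hF : ∀ j, ∃ C : ℝ, ∀ x, |F j x| ≤ C) :
    ∃ C : ℝ, ∀ x, |∑ j, F j x| ≤ C := by
  choose C hC using hF
  exact ⟨∑ j, C j, fun x => (Finset.abs_sum_le_sum_abs _ _).trans (Finset.sum_le_sum fun j _ => hC j x)⟩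

theorem sq_bdd {n : ℕ} {F : E n → ℝ} (hF : ∃ C : ℝ, ∀ x, |F x| ≤ C) (a : ℝ) :
    ∃ C : ℝ, ∀ x, |(F x - a) ^ 2| ≤ C := by
  obtain ⟨C, hC⟩ := hF
  refine ⟨(C + |a|) ^ 2, fun x => ?_⟩
  rw [abs_pow]
  have h1 : |F x - a| ≤ C + |a| := (abs_sub _ _).trans (by gcongr; exact hC x)
  gcongr

theorem exp_num : exp (1681 / 3200 : ℝ) ≤ 1.692 := by
  have h := Real.exp_bound' (x := 1681 / 3200) (by norm_num) (by norm_num) (n := 5) (by norm_num)
  refine h.trans ?_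
  norm_num [Finset.sum_range_succ, Nat.factorial]

theorem stmt_POI (hSW0 : Stmt_SW0) (hINT : Stmt_INT) (hVD : Stmt_VD) (hTRC : Stmt_TRC)
    (hTAIL : Stmt_TAIL) (hBLP : Stmt_BLP) : Stmt_POI := by
  intro n ι _ k θ h l hm R hn hSp hk hhm hR hh hkh hPR hPl u hu
  have hnR : (1 : ℝ) ≤ n := by exact_mod_cast hn
  have hhpos : ∀ i, 0 < h i := fun i => lt_of_lt_of_le hhm (hh i)
  let a : Fin n → ℝ := fun j => mean (Vq R k θ h l) (pd j u)
  refine ⟨a, ?_⟩
  set A : ℝ := ‖l‖ + 2 with hA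
  have hA0 : 0 ≤ A := by positivity
  have hA1 : 1 ≤ A := by have := norm_nonneg l; linarith
  have hA2 : 2 ≤ A := by have := norm_nonneg l; linarith
  have hAl : ‖l‖ ≤ A := by linarith
  -- the functions
  have hpc : ∀ j, Continuous (pd j u) := fun j => (test_pd hu j).1.continuous
  have hppc : ∀ i j, Continuous (pd i (pd j u)) := fun i j => (test_pd (test_pd hu j) i).1.continuous
  have hvj_b : ∀ j, ∃ C : ℝ, ∀ x, |(pd j u x - a j) ^ 2| ≤ C := fun j => sq_bdd (pd_bdd hu j) _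
  have hvc : Continuous (fun x => ∑ j, (pd j u x - a j) ^ 2) := by
    refine continuous_finsetSum _ fun j _ => ?_
    exact ((hpc j).sub continuous_const).pow 2
  have hvb : ∃ C : ℝ, ∀ x, |∑ j, (pd j u x - a j) ^ 2| ≤ C := sum_bdd hvj_b
  have hv0 : ∀ x, 0 ≤ ∑ j, (pd j u x - a j) ^ 2 := fun x => Finset.sum_nonneg fun j _ => sq_nonneg _
  have hppb : ∀ i j, ∃ C : ℝ, ∀ x, |(pd i (pd j u) x) ^ 2| ≤ C := by
    intro i j
    have := sq_bdd (pd_bdd (test_pd hu j) i) 0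
    simpa using this
  have hsc : Continuous (fun x => hs u x) := by
    unfold hs
    refine continuous_finsetSum _ fun i _ => continuous_finsetSum _ fun j _ => ?_
    exact (hppc i j).pow 2
  have hsb : ∃ C : ℝ, ∀ x, |hs u x| ≤ C := sum_bdd fun i => sum_bdd (hppb i)
  have hs0 : ∀ x, 0 ≤ hs u x := fun x => Finset.sum_nonneg fun i _ => Finset.sum_nonneg fun j _ => sq_nonneg _
  have hqc : Continuous (fun x : E n => exp (-(‖x‖ ^ 2 / (2 * R ^ 2)))) := by fun_prop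
  have hq1 : ∀ x : E n, exp (-(‖x‖ ^ 2 / (2 * R ^ 2))) ≤ 1 := by
    intro x
    rw [exp_le_one_iff]
    have : 0 ≤ ‖x‖ ^ 2 / (2 * R ^ 2) := by positivity
    linarith
  have hqb : ∃ C : ℝ, ∀ x : E n, |exp (-(‖x‖ ^ 2 / (2 * R ^ 2)))| ≤ C :=
    ⟨1, fun x => by rw [abs_of_pos (exp_pos _)]; exact hq1 x⟩
  have hW0 : ∀ x, 0 < W k θ h l x := fun x => exp_pos _
  -- integrability
  have intW : ∀ {F : E n → ℝ}, Continuous F → (∃ C : ℝ, ∀ x, |F x| ≤ C) →
      Integrable (fun x => F x * W k θ h l x) := fun hFc hFb =>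
    (Adm.of_bdd (k := k) (θ := θ) (h := h) hSW0 hA0 hFc hFb).integrable hSW0 hINT hk hSp hAl
  have intWq : ∀ {F : E n → ℝ}, Continuous F → (∃ C : ℝ, ∀ x, |F x| ≤ C) →
      Integrable (fun x => F x * wt (Vq R k θ h l) x) := by
    intro F hFc hFb
    have := ((Adm.of_bdd (k := k) (θ := θ) (h := h) hSW0 hA0 hFc hFb).mul hqc hqb).integrable hSW0 hINT
      hk hSp hAl
    refine this.congr (Eventually.of_forall fun x => ?_)
    simp only [Vq_wt]
    ring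
  have hwtq0 : ∀ x, 0 ≤ wt (Vq R k θ h l) x := fun x => (exp_pos _).le
  have hwtq1 : ∀ x, wt (Vq R k θ h l) x ≤ W k θ h l x := by
    intro x
    rw [Vq_wt]
    have h1 := hq1 x
    have h2 := hW0 x
    nlinarith
  -- Brascamp-Lieb
  have hblp : ∀ j, 1 / R ^ 2 * ∫ x, (pd j u x - a j) ^ 2 * wt (Vq R k θ h l) x
      ≤ ∫ x, (∑ i, (pd i (pd j u) x) ^ 2) * wt (Vq R k θ h l) x := by
    intro j
    refine hBLP n (Vq R k θ h l) (1 / R ^ 2) (by positivity) (Vq_cd hVD) ?_ (Vq_hess hSW0 hVD) (pd j u)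
      (test_pd hu j)
    have := intWq (F := fun _ => 1) continuous_const ⟨1, fun x => by simp⟩
    simpa using this
  have hsum1 : ∫ x, (∑ j, (pd j u x - a j) ^ 2) * wt (Vq R k θ h l) x
      = ∑ j, ∫ x, (pd j u x - a j) ^ 2 * wt (Vq R k θ h l) x := by
    simp_rw [Finset.sum_mul]
    exact integral_finsetSum _ fun j _ => intWq (((hpc j).sub continuous_const).pow 2) (hvj_b j)
  have hsum2 : ∫ x, hs u x * wt (Vq R k θ h l) x
      = ∑ j, ∫ x, (∑ i, (pd i (pd j u) x) ^ 2) * wt (Vq R k θ h l) x := by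
    rw [← integral_finsetSum]
    · refine integral_congr_ae (Eventually.of_forall fun x => ?_)
      simp only
      unfold hs
      rw [Finset.sum_comm, Finset.sum_mul]
    · intro j _
      exact intWq (continuous_finsetSum _ fun i _ => (hppc i j).pow 2) (sum_bdd fun i => hppb i j)
  have hB1 : ∫ x, (∑ j, (pd j u x - a j) ^ 2) * wt (Vq R k θ h l) x
      ≤ R ^ 2 * ∫ x, hs u x * W k θ h l x := by
    have h1 : 1 / R ^ 2 * ∫ x, (∑ j, (pd j u x - a j) ^ 2) * wt (Vq R k θ h l) x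
        ≤ ∫ x, hs u x * wt (Vq R k θ h l) x := by
      rw [hsum1, hsum2, Finset.mul_sum]
      exact Finset.sum_le_sum fun j _ => hblp j
    have h2 : ∫ x, hs u x * wt (Vq R k θ h l) x ≤ ∫ x, hs u x * W k θ h l x :=
      integral_mono (intWq hsc hsb) (intW hsc hsb) fun x => mul_le_mul_of_nonneg_left (hwtq1 x) (hs0 x)
    have h3 := h1.trans h2
    rw [one_div, inv_mul_le_iff₀ (by positivity)] at h3
    exact h3
  set N : ℝ := ∫ x, hs u x * W k θ h l x with hN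
  have hN0 : 0 ≤ N := integral_nonneg fun x => mul_nonneg (hs0 x) (hW0 x).le
  set β : ℝ := 13 / 10 * R ^ 2 with hβ
  have hβ0 : 0 < β := by positivity
  have htrc := hTRC n ι k θ h l hk hSp u a β hu hβ0
  obtain ⟨ht1, ht2⟩ := hTAIL n ι k θ h l hm R hn hhm hR hh hkh hPR hPl
  -- integrable functions
  have I1 : Integrable (fun x => (∑ j, (pd j u x - a j) ^ 2) * W k θ h l x) := intW hvc hvb
  have I2 : Integrable (fun x => (∑ j, (pd j u x - a j) ^ 2) * Sx k θ h x * W k θ h l x) := by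
    have := ((Adm.sx (θ := θ) (h := h) hSW0 hA1 hk).mul hvc hvb).integrable hSW0 hINT hk hSp hAl
    refine this.congr (Eventually.of_forall fun x => ?_)
    simp only
    ring
  have I3 : Integrable (fun x => ((n : ℝ) + inner ℝ l x + ‖x‖ ^ 2 / β) * (∑ j, (pd j u x - a j) ^ 2)
      * W k θ h l x) :=
    ((Adm.poly (k := k) (θ := θ) (h := h) hSW0 hA2 n β l).mul hvc hvb).integrable hSW0 hINT hk hSp hAl
  have I4 : Integrable (fun x => (∑ j, (pd j u x - a j) ^ 2) * wt (Vq R k θ h l) x) := intWq hvc hvb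
  -- the pointwise inequality
  have hpt : ∀ x, 1000 * n * ((∑ j, (pd j u x - a j) ^ 2) * W k θ h l x)
      ≤ (∑ j, (pd j u x - a j) ^ 2) * Sx k θ h x * W k θ h l x
        - ((n : ℝ) + inner ℝ l x + ‖x‖ ^ 2 / β) * (∑ j, (pd j u x - a j) ^ 2) * W k θ h l x
        + (1000 * n + (81 / 40 * n + 81 / 100)) * 1.692
          * ((∑ j, (pd j u x - a j) ^ 2) * wt (Vq R k θ h l) x) := by
    intro x
    have hvW : 0 ≤ (∑ j, (pd j u x - a j) ^ 2) * W k θ h l x := mul_nonneg (hv0 x) (hW0 x).le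
    have hvq : 0 ≤ (∑ j, (pd j u x - a j) ^ 2) * wt (Vq R k θ h l) x := mul_nonneg (hv0 x) (hwtq0 x)
    have hS0 : 0 ≤ Sx k θ h x := sx_nonneg hSW0 hk hhpos x
    have e1 : (∑ j, (pd j u x - a j) ^ 2) * Sx k θ h x * W k θ h l x
        - ((n : ℝ) + inner ℝ l x + ‖x‖ ^ 2 / β) * (∑ j, (pd j u x - a j) ^ 2) * W k θ h l x
        = (Sx k θ h x - ((n : ℝ) + inner ℝ l x + ‖x‖ ^ 2 / β))
          * ((∑ j, (pd j u x - a j) ^ 2) * W k θ h l x) := by ring
    rw [e1]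
    by_cases hx : ∀ i, inner ℝ (θ i) x ≤ 41 / 40 * h i
    · have hT := ht1 x hx
      have hxn : ‖x‖ ≤ 41 / 40 * R := by
        have h1 : ((40 / 41 : ℝ) • x) ∈ Pset θ h := by
          intro i
          rw [inner_smul_right]
          have := hx i
          linarith
        have h2 := hPR _ h1
        rw [norm_smul, Real.norm_of_nonneg (by norm_num)] at h2
        linarith
      have hq : ‖x‖ ^ 2 / (2 * R ^ 2) ≤ 1681 / 3200 := by
        rw [div_le_iff₀ (by positivity)]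
        have h1 : ‖x‖ ^ 2 ≤ (41 / 40 * R) ^ 2 := by gcongr
        nlinarith
      have hWq : W k θ h l x ≤ 1.692 * wt (Vq R k θ h l) x := by
        have h1 : W k θ h l x = exp (‖x‖ ^ 2 / (2 * R ^ 2)) * wt (Vq R k θ h l) x := by
          rw [Vq_wt, ← mul_assoc, ← exp_add]
          simp
        rw [h1]
        have h2 : exp (‖x‖ ^ 2 / (2 * R ^ 2)) ≤ 1.692 := (exp_le_exp.2 hq).trans exp_num
        exact mul_le_mul_of_nonneg_right h2 (hwtq0 x)
      have hvWq : (∑ j, (pd j u x - a j) ^ 2) * W k θ h l x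
          ≤ 1.692 * ((∑ j, (pd j u x - a j) ^ 2) * wt (Vq R k θ h l) x) := by
        calc _ ≤ (∑ j, (pd j u x - a j) ^ 2) * (1.692 * wt (Vq R k θ h l) x) :=
              mul_le_mul_of_nonneg_left hWq (hv0 x)
          _ = _ := by ring
      have h5 : -(81 / 40 * (n : ℝ) + 81 / 100) * ((∑ j, (pd j u x - a j) ^ 2) * W k θ h l x)
          ≤ (Sx k θ h x - ((n : ℝ) + inner ℝ l x + ‖x‖ ^ 2 / β))
            * ((∑ j, (pd j u x - a j) ^ 2) * W k θ h l x) := by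
        apply mul_le_mul_of_nonneg_right _ hvW
        rw [hβ]
        linarith
      have h6 : (1000 * (n : ℝ) + (81 / 40 * n + 81 / 100)) * ((∑ j, (pd j u x - a j) ^ 2) * W k θ h l x)
          ≤ (1000 * (n : ℝ) + (81 / 40 * n + 81 / 100))
            * (1.692 * ((∑ j, (pd j u x - a j) ^ 2) * wt (Vq R k θ h l) x)) := by
        apply mul_le_mul_of_nonneg_left hvWq
        positivity
      linarith
    · have hT := ht2 x hx
      rw [← hβ] at hT
      have h5 : 1000 * (n : ℝ) * ((∑ j, (pd j u x - a j) ^ 2) * W k θ h l x)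
          ≤ (Sx k θ h x - ((n : ℝ) + inner ℝ l x + ‖x‖ ^ 2 / β))
            * ((∑ j, (pd j u x - a j) ^ 2) * W k θ h l x) := by
        apply mul_le_mul_of_nonneg_right _ hvW
        linarith
      have h6 : 0 ≤ (1000 * (n : ℝ) + (81 / 40 * n + 81 / 100)) * 1.692
          * ((∑ j, (pd j u x - a j) ^ 2) * wt (Vq R k θ h l) x) := by positivity
      linarith
  have hint := integral_mono (I1.const_mul (1000 * (n : ℝ)))
    ((I2.sub I3).add (I4.const_mul ((1000 * (n : ℝ) + (81 / 40 * n + 81 / 100)) * 1.692))) hpt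
  rw [integral_const_mul, integral_add' (I2.sub I3) (I4.const_mul _), integral_sub' I2 I3,
    integral_const_mul] at hint
  have hfin : 1000 * (n : ℝ) * ∫ x, (∑ j, (pd j u x - a j) ^ 2) * W k θ h l x
      ≤ β * N + (1000 * (n : ℝ) + (81 / 40 * n + 81 / 100)) * 1.692 * (R ^ 2 * N) := by
    have h7 : (1000 * (n : ℝ) + (81 / 40 * n + 81 / 100)) * 1.692
        * ∫ x, (∑ j, (pd j u x - a j) ^ 2) * wt (Vq R k θ h l) x
        ≤ (1000 * (n : ℝ) + (81 / 40 * n + 81 / 100)) * 1.692 * (R ^ 2 * N) := by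
      apply mul_le_mul_of_nonneg_left hB1
      positivity
    linarith
  have hRN : 0 ≤ R ^ 2 * N := by positivity
  have hfin2 : β * N + (1000 * (n : ℝ) + (81 / 40 * n + 81 / 100)) * 1.692 * (R ^ 2 * N)
      ≤ 1000 * n * (17 / 10 * R ^ 2 * N) := by
    have e1 : β * N + (1000 * (n : ℝ) + (81 / 40 * n + 81 / 100)) * 1.692 * (R ^ 2 * N)
        = (13 / 10 + (1000 * (n : ℝ) + (81 / 40 * n + 81 / 100)) * 1.692) * (R ^ 2 * N) := by
      rw [hβ]; ring
    rw [e1]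
    have e2 : 1000 * (n : ℝ) * (17 / 10 * R ^ 2 * N) = (1700 * n) * (R ^ 2 * N) := by ring
    rw [e2]
    apply mul_le_mul_of_nonneg_right _ hRN
    linarith
  have h8 := hfin.trans hfin2
  have hn0 : 0 < 1000 * (n : ℝ) := by positivity
  exact le_of_mul_le_mul_left h8 hn0

end Pool.Agent.Work.LPBM.helper48
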